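import Mathlib

/-!
# The kernel inequality and the positive semidefinite kernel
-/

set_option autoImplicit false

namespace Pool.Agent.Q308.PCD

open Finset

/-- the positive semidefinite kernel `2 - |c - c'|` between the measures `β δ_(1-β) - α δ_α` -/
noncomputable def inn (α β α' β' : ℝ) : ℝ :=
  β * β' * (2 - |β - β'|) + α * α' * (2 - |α - α'|) - β * α' * (2 - |1 - β - α'|)
    - α * β' * (2 - |1 - α - β'|)

lemma br_nonneg {α α' β : ℝ} (h1 : 0 ≤ α) (h3 : 0 ≤ α') (h4 : α' ≤ 1)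
    (h5 : 0 ≤ β) : 0 ≤ α + 2 * β + 1 - α' * (2 - |α - α'|) := by
  rcases abs_cases (α - α') with ⟨h, h'⟩ | ⟨h, h'⟩
  · rw [h]; nlinarith
  · rw [h]; nlinarith [sq_nonneg (1 - α'), mul_nonneg h1 (sub_nonneg.2 h4)]

lemma ker_case1 {α β α' β' : ℝ} (hα : 0 ≤ α) (hα1 : α ≤ 1) (hβ : 0 ≤ β) (hβ1 : β ≤ 1)
    (hα' : 0 ≤ α') (hα'1 : α' ≤ 1) (hβ' : 0 ≤ β') (hβ'1 : β' ≤ 1)
    (h12 : 1 < β + α') (h21 : β' + α ≤ 1) :
    inn α β α' β' < (α + β) ^ 2 + (α' + β') ^ 2 - (2 - (α + β) - (α' + β')) := by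
  have b1 := br_nonneg (β := β) hα hα' hα'1 hβ
  have b2 := br_nonneg (β := α') hβ' hβ hβ1 hα'
  have e1 : |1 - β - α'| = β + α' - 1 := by rw [abs_of_neg (by linarith)]; ring
  have e2 : |1 - α - β'| = 1 - α - β' := abs_of_nonneg (by linarith)
  have e3 : |β - β'| = |β' - β| := abs_sub_comm _ _
  have t1 : 0 < (β + α' - 1) * (β + α' - 1 + 3 - β * α') := by
    apply mul_pos (by linarith)
    nlinarith
  have m1 := mul_nonneg hα b1
  have m2 := mul_nonneg hβ' b2
  have m3 := mul_nonneg (mul_nonneg hα hβ') (show 0 ≤ 1 + α + β' by linarith)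
  unfold inn
  rw [e1, e2, e3]
  nlinarith

lemma ker_case0 {α β α' β' : ℝ} (hα : 0 ≤ α) (hβ : 0 ≤ β)
    (hα' : 0 ≤ α') (hβ' : 0 ≤ β')
    (h12 : β + α' ≤ 1) (h21 : β' + α ≤ 1) :
    inn α β α' β' ≤ (α + β) ^ 2 + (α' + β') ^ 2 := by
  have e1 : |1 - β - α'| = 1 - β - α' := abs_of_nonneg (by linarith)
  have e2 : |1 - α - β'| = 1 - α - β' := abs_of_nonneg (by linarith)
  have p1 := mul_nonneg (mul_nonneg hβ hβ') (abs_nonneg (β - β'))
  have p2 := mul_nonneg (mul_nonneg hα hα') (abs_nonneg (α - α'))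
  have p3 := mul_nonneg (mul_nonneg hβ hα') (show 0 ≤ 1 + β + α' by linarith)
  have p4 := mul_nonneg (mul_nonneg hα hβ') (show 0 ≤ 1 + α + β' by linarith)
  have p5 := mul_nonneg hα hβ
  have p6 := mul_nonneg hα' hβ'
  unfold inn
  rw [e1, e2]
  nlinarith [sq_nonneg (β - β'), sq_nonneg (α - α')]

lemma ker_case2 {α β α' β' : ℝ} (hα : 0 ≤ α) (hα1 : α ≤ 1) (hβ : 0 ≤ β) (hβ1 : β ≤ 1)
    (hα' : 0 ≤ α') (hα'1 : α' ≤ 1) (hβ' : 0 ≤ β') (hβ'1 : β' ≤ 1)
    (h12 : 1 < β + α') (h21 : 1 < β' + α) :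
    inn α β α' β' < (α + β) ^ 2 + (α' + β') ^ 2 - (2 - (α + β) - (α' + β')) * 2 := by
  have e1 : |1 - β - α'| = β + α' - 1 := by rw [abs_of_neg (by linarith)]; ring
  have e2 : |1 - α - β'| = α + β' - 1 := by rw [abs_of_neg (by linarith)]; ring
  have p1 := mul_nonneg (mul_nonneg hβ hβ') (abs_nonneg (β - β'))
  have p2 := mul_nonneg (mul_nonneg hα hα') (abs_nonneg (α - α'))
  have p3 := mul_nonneg (mul_nonneg hβ hα') (show 0 ≤ 3 - β - α' by linarith)
  have p4 := mul_nonneg (mul_nonneg hα hβ') (show 0 ≤ 3 - α - β' by linarith)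
  have p5 := mul_nonneg hα hβ
  have p6 := mul_nonneg hα' hβ'
  unfold inn
  rw [e1, e2]
  nlinarith [sq_nonneg (β - β'), sq_nonneg (α - α')]

lemma inn_symm (α β α' β' : ℝ) : inn α β α' β' = inn α' β' α β := by
  unfold inn
  rw [abs_sub_comm β β', abs_sub_comm α α', show (1 - β - α' : ℝ) = 1 - α' - β by ring,
    show (1 - α - β' : ℝ) = 1 - β' - α by ring]
  ring

/-- the positive semidefinite kernel -/
lemma psd {ι : Type*} [Fintype ι] (n : ℕ) (y : ι → ℝ) (c : ι → ℕ) (hc : ∀ i, c i ≤ n) :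
    0 ≤ ∑ i, ∑ j, y i * y j * (2 * n - |(c i : ℝ) - c j|) := by
  classical
  have hab : ∀ i j, |(c i : ℝ) - c j| = ∑ z ∈ range n,
      ((if z < c i then (1 : ℝ) else 0) - (if z < c j then 1 else 0)) ^ 2 := by
    intro i j
    have key : ∀ a b : ℕ, a ≤ b → b ≤ n → ((b : ℝ) - a) = ∑ z ∈ range n,
        ((if z < b then (1 : ℝ) else 0) - (if z < a then 1 else 0)) ^ 2 := by
      intro a b hab hbn
      have : ∀ z ∈ range n, ((if z < b then (1 : ℝ) else 0) - (if z < a then 1 else 0)) ^ 2 =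
          if z ∈ Ico a b then (1 : ℝ) else 0 := by
        intro z _
        by_cases h1 : z < a
        · have h2 : z < b := by omega
          have h3 : ¬ (z ∈ Ico a b) := by rw [mem_Ico]; omega
          rw [if_pos h1, if_pos h2, if_neg h3]; norm_num
        · by_cases h2 : z < b
          · have h3 : z ∈ Ico a b := by rw [mem_Ico]; omega
            rw [if_neg h1, if_pos h2, if_pos h3]; norm_num
          · have h3 : ¬ (z ∈ Ico a b) := by rw [mem_Ico]; omega
            rw [if_neg h1, if_neg h2, if_neg h3]; norm_num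
      rw [sum_congr rfl this, ← sum_filter, sum_const, nsmul_eq_mul, mul_one]
      have h4 : (range n).filter (fun z => z ∈ Ico a b) = Ico a b := by
        ext z; rw [mem_filter, mem_range, mem_Ico]; omega
      rw [h4, Nat.card_Ico, Nat.cast_sub hab]
    rcases le_total (c i) (c j) with h | h
    · rw [abs_sub_comm, abs_of_nonneg (by have : (c i : ℝ) ≤ c j := by exact_mod_cast h
                                          linarith), key _ _ h (hc j)]
      exact sum_congr rfl fun z _ => by ring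
    · rw [abs_of_nonneg (by have : (c j : ℝ) ≤ c i := by exact_mod_cast h
                            linarith), key _ _ h (hc i)]
  set χ : ℕ → ι → ℝ := fun z i => if z < c i then 1 else 0 with hχ
  have hχ2 : ∀ z i, χ z i ^ 2 = χ z i := by
    intro z i; simp only [hχ]; split_ifs <;> norm_num
  have hmain : ∑ i, ∑ j, y i * y j * (2 * n - |(c i : ℝ) - c j|) =
      ∑ z ∈ range n, 2 * ((∑ i, y i) ^ 2 - (∑ i, y i) * (∑ i, y i * χ z i) +
        (∑ i, y i * χ z i) ^ 2) := by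
    have h1 : ∀ i j, y i * y j * (2 * n - |(c i : ℝ) - c j|) =
        ∑ z ∈ range n, y i * y j * (2 - (χ z i - χ z j) ^ 2) := by
      intro i j
      rw [hab i j, ← mul_sum, sum_sub_distrib, sum_const, card_range, nsmul_eq_mul]
      ring
    simp_rw [h1]
    rw [show (∑ i, ∑ j, ∑ z ∈ range n, y i * y j * (2 - (χ z i - χ z j) ^ 2)) =
        ∑ z ∈ range n, ∑ i, ∑ j, y i * y j * (2 - (χ z i - χ z j) ^ 2) by
      rw [sum_congr rfl fun i _ => sum_comm, sum_comm]]
    refine sum_congr rfl fun z _ => ?_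
    have h2 : ∀ i j, y i * y j * (2 - (χ z i - χ z j) ^ 2) =
        2 * (y i * y j) - (y i * χ z i) * y j - y i * (y j * χ z j)
          + 2 * ((y i * χ z i) * (y j * χ z j)) := by
      intro i j
      have a1 := hχ2 z i
      have a2 := hχ2 z j
      calc y i * y j * (2 - (χ z i - χ z j) ^ 2) = y i * y j * (2 - χ z i ^ 2 - χ z j ^ 2
            + 2 * χ z i * χ z j) := by ring
        _ = _ := by rw [a1, a2]; ring
    simp_rw [h2]
    simp_rw [sum_add_distrib, sum_sub_distrib, ← mul_sum, ← sum_mul]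
    ring
  rw [hmain]
  refine sum_nonneg fun z _ => ?_
  nlinarith [sq_nonneg ((∑ i, y i) - (∑ i, y i * χ z i)), sq_nonneg (∑ i, y i),
    sq_nonneg (∑ i, y i * χ z i)]

end Pool.Agent.Q308.PCD
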