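import Mathlib
import Pool.Agent.Q308.PCD.Ker

/-!
# The weighted inequality
-/

set_option autoImplicit false

namespace Pool.Agent.Q308.PCD

open Finset

variable {k : ℕ}

/-- the values `(i, j)`: numbers of the agents of the two sides in a half circle -/
abbrev V (k : ℕ) := Fin (k + 1) × Fin (k + 1)

noncomputable def hh (v : V k) : ℝ := (v.1 : ℕ) + (v.2 : ℕ)

noncomputable def ee (v v' : V k) : ℝ :=
  (if k < (v.1 : ℕ) + (v'.2 : ℕ) then (1 : ℝ) else 0) +
    (if k < (v'.1 : ℕ) + (v.2 : ℕ) then (1 : ℝ) else 0)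

noncomputable def bb (v : V k) : ℝ := 2 * ((v.1 : ℕ) : ℝ) / (2 * k + 1)
noncomputable def aa (v : V k) : ℝ := 2 * ((v.2 : ℕ) : ℝ) / (2 * k + 1)

lemma npos : (0 : ℝ) < 2 * k + 1 := by positivity

lemma val_le (i : Fin (k + 1)) : ((i : ℕ) : ℝ) ≤ k := by
  have := i.isLt
  exact_mod_cast (by omega : (i : ℕ) ≤ k)

lemma unit_of (i : Fin (k + 1)) : 0 ≤ 2 * ((i : ℕ) : ℝ) / (2 * k + 1) ∧
    2 * ((i : ℕ) : ℝ) / (2 * k + 1) ≤ 1 := by
  refine ⟨by positivity, ?_⟩
  rw [div_le_one npos]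
  have := val_le i
  linarith

lemma lt_iff (i j : Fin (k + 1)) : k < (i : ℕ) + (j : ℕ) ↔
    1 < 2 * ((i : ℕ) : ℝ) / (2 * k + 1) + 2 * ((j : ℕ) : ℝ) / (2 * k + 1) := by
  rw [← add_div, one_lt_div npos]
  constructor
  · intro h
    have : (k : ℝ) + 1 ≤ (i : ℕ) + (j : ℕ) := by exact_mod_cast h
    linarith
  · intro h
    by_contra h'
    have : ((i : ℕ) : ℝ) + (j : ℕ) ≤ k := by exact_mod_cast (not_lt.1 h')
    linarith

lemma le_of (i j : Fin (k + 1)) (h : ¬ k < (i : ℕ) + (j : ℕ)) :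
    2 * ((i : ℕ) : ℝ) / (2 * k + 1) + 2 * ((j : ℕ) : ℝ) / (2 * k + 1) ≤ 1 :=
  not_lt.1 fun h' => h ((lt_iff i j).2 h')

/-- the kernel -/
noncomputable def ker (v v' : V k) : ℝ :=
  (aa v + bb v) ^ 2 + (aa v' + bb v') ^ 2 - (2 - (aa v + bb v) - (aa v' + bb v')) * ee v v'

lemma ker_le (v v' : V k) : inn (aa v) (bb v) (aa v') (bb v') ≤ ker v v' ∧
    (ee v v' ≠ 0 → inn (aa v) (bb v) (aa v') (bb v') < ker v v') := by
  obtain ⟨a1, a2⟩ := unit_of v.2
  obtain ⟨b1, b2⟩ := unit_of v.1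
  obtain ⟨a3, a4⟩ := unit_of v'.2
  obtain ⟨b3, b4⟩ := unit_of v'.1
  by_cases h1 : k < (v.1 : ℕ) + (v'.2 : ℕ) <;> by_cases h2 : k < (v'.1 : ℕ) + (v.2 : ℕ)
  · have := ker_case2 a1 a2 b1 b2 a3 a4 b3 b4 ((lt_iff _ _).1 h1) ((lt_iff _ _).1 h2)
    have e : ee v v' = 2 := by unfold ee; rw [if_pos h1, if_pos h2]; norm_num
    unfold ker
    rw [e]
    exact ⟨this.le, fun _ => this⟩
  · have := ker_case1 a1 a2 b1 b2 a3 a4 b3 b4 ((lt_iff _ _).1 h1) (le_of _ _ h2)
    have e : ee v v' = 1 := by unfold ee; rw [if_pos h1, if_neg h2]; norm_num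
    unfold ker
    rw [e, mul_one]
    exact ⟨this.le, fun _ => this⟩
  · have := ker_case1 a3 a4 b3 b4 a1 a2 b1 b2 ((lt_iff _ _).1 h2) (le_of _ _ h1)
    have e : ee v v' = 1 := by unfold ee; rw [if_neg h1, if_pos h2]; norm_num
    unfold ker
    rw [e, mul_one, inn_symm]
    have h3 : inn (aa v') (bb v') (aa v) (bb v) <
        (aa v + bb v) ^ 2 + (aa v' + bb v') ^ 2 - (2 - (aa v + bb v) - (aa v' + bb v')) := by
      have h4 : (aa v + bb v) ^ 2 + (aa v' + bb v') ^ 2 - (2 - (aa v + bb v) - (aa v' + bb v')) =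
        (aa v' + bb v') ^ 2 + (aa v + bb v) ^ 2 - (2 - (aa v' + bb v') - (aa v + bb v)) := by
        ring
      rw [h4]
      exact this
    exact ⟨h3.le, fun _ => h3⟩
  · have := ker_case0 a1 b1 a3 b3 (le_of _ _ h1) (le_of _ _ h2)
    have e : ee v v' = 0 := by unfold ee; rw [if_neg h1, if_neg h2]; norm_num
    unfold ker
    rw [e, mul_zero, sub_zero]
    exact ⟨this, fun h => absurd rfl h⟩

lemma sumVB (f : V k × Bool → ℝ) : ∑ p, f p = ∑ v : V k, (f (v, true) + f (v, false)) := by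
  rw [Fintype.sum_prod_type]
  exact sum_congr rfl fun v _ => Fintype.sum_bool _

lemma inn_psd (w : V k → ℝ) :
    0 ≤ ∑ v, ∑ v', w v * w v' * inn (aa v) (bb v) (aa v') (bb v') := by
  have h := psd (ι := V k × Bool) (2 * k + 1)
    (fun p => if p.2 then w p.1 * bb p.1 else -(w p.1 * aa p.1))
    (fun p => if p.2 then 2 * k + 1 - 2 * (p.1.1 : ℕ) else 2 * (p.1.2 : ℕ))
    (fun p => by
      have := p.1.2.isLt
      split_ifs <;> omega)
  have hn : (0 : ℝ) < 2 * k + 1 := npos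
  have cb : ∀ v : V k, ((2 * k + 1 - 2 * (v.1 : ℕ) : ℕ) : ℝ) = (2 * k + 1) * (1 - bb v) := by
    intro v
    have := v.1.isLt
    rw [Nat.cast_sub (by omega)]
    unfold bb
    push_cast
    field_simp
  have ca : ∀ v : V k, ((2 * (v.2 : ℕ) : ℕ) : ℝ) = (2 * k + 1) * aa v := by
    intro v
    unfold aa
    push_cast
    field_simp
  have e : ∑ i : V k × Bool, ∑ j : V k × Bool,
      (if i.2 then w i.1 * bb i.1 else -(w i.1 * aa i.1)) *
      (if j.2 then w j.1 * bb j.1 else -(w j.1 * aa j.1)) * (2 * ((2 * k + 1 : ℕ) : ℝ) -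
        |(((if i.2 then 2 * k + 1 - 2 * (i.1.1 : ℕ) else 2 * (i.1.2 : ℕ) : ℕ)) : ℝ) -
          ((if j.2 then 2 * k + 1 - 2 * (j.1.1 : ℕ) else 2 * (j.1.2 : ℕ) : ℕ))|) =
      (2 * k + 1) * ∑ v, ∑ v', w v * w v' * inn (aa v) (bb v) (aa v') (bb v') := by
    rw [sumVB, mul_sum]
    refine sum_congr rfl fun v _ => ?_
    rw [sumVB, sumVB, ← sum_add_distrib, mul_sum]
    refine sum_congr rfl fun v' _ => ?_
    simp only [if_true, Bool.false_eq_true, if_false]
    rw [cb, cb, ca, ca]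
    have x1 : |(2 * (k : ℝ) + 1) * (1 - bb v) - (2 * k + 1) * (1 - bb v')| =
        (2 * k + 1) * |bb v - bb v'| := by
      rw [← abs_of_pos hn, ← abs_mul, abs_of_pos hn, ← abs_neg]
      congr 1; ring
    have x2 : |(2 * (k : ℝ) + 1) * (1 - bb v) - (2 * k + 1) * aa v'| =
        (2 * k + 1) * |1 - bb v - aa v'| := by
      rw [← abs_of_pos hn, ← abs_mul, abs_of_pos hn]
      congr 1; ring
    have x3 : |(2 * (k : ℝ) + 1) * aa v - (2 * k + 1) * (1 - bb v')| =
        (2 * k + 1) * |1 - aa v - bb v'| := by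
      rw [← abs_of_pos hn, ← abs_mul, abs_of_pos hn, ← abs_neg]
      congr 1; ring
    have x4 : |(2 * (k : ℝ) + 1) * aa v - (2 * k + 1) * aa v'| =
        (2 * k + 1) * |aa v - aa v'| := by
      rw [← abs_of_pos hn, ← abs_mul, abs_of_pos hn]
      congr 1; ring
    rw [x1, x2, x3, x4]
    unfold inn
    push_cast
    ring
  rw [e] at h
  exact nonneg_of_mul_nonneg_right h hn

/-- the weighted inequality -/
theorem wineq (w : V k → ℝ) (hw : ∀ v, 0 ≤ w v) (hs : ∑ v, w v = 1 / 2)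
    (hp : 0 < ∑ v, w v * hh v) :
    ∑ v, ∑ v', w v * w v' * ((2 * k + 1 - hh v - hh v') * ee v v') <
      2 / (2 * k + 1) * ∑ v, w v * hh v ^ 2 := by
  have hn : (0 : ℝ) < 2 * k + 1 := npos
  have hsv : ∀ v : V k, aa v + bb v = 2 * hh v / (2 * k + 1) := by
    intro v; unfold aa bb hh; ring
  have hker : ∑ v, ∑ v', w v * w v' * ker v v' =
      2 / (2 * k + 1) * (2 / (2 * k + 1) * ∑ v, w v * hh v ^ 2 -
        ∑ v, ∑ v', w v * w v' * ((2 * k + 1 - hh v - hh v') * ee v v')) := by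
    have h1 : ∀ v v' : V k, w v * w v' * ker v v' =
        4 / (2 * k + 1) ^ 2 * ((w v * hh v ^ 2) * w v') +
        4 / (2 * k + 1) ^ 2 * (w v * (w v' * hh v' ^ 2)) -
        2 / (2 * k + 1) * (w v * w v' * ((2 * k + 1 - hh v - hh v') * ee v v')) := by
      intro v v'
      unfold ker
      rw [hsv, hsv]
      field_simp
      ring
    simp_rw [h1]
    simp_rw [sum_sub_distrib, sum_add_distrib, ← mul_sum, ← sum_mul, hs]
    field_simp
    ring
  suffices h : 0 < ∑ v, ∑ v', w v * w v' * ker v v' by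
    rw [hker] at h
    have := (mul_pos_iff_of_pos_left (by positivity : (0:ℝ) < 2 / (2 * k + 1))).1 h
    linarith
  by_cases hc : ∃ v v' : V k, 0 < w v ∧ 0 < w v' ∧ ee v v' ≠ 0
  · obtain ⟨v0, v1, h0, h1, he⟩ := hc
    refine lt_of_le_of_lt (inn_psd w) ?_
    refine sum_lt_sum (fun v _ => sum_le_sum fun v' _ =>
      mul_le_mul_of_nonneg_left (ker_le v v').1 (mul_nonneg (hw v) (hw v'))) ⟨v0, mem_univ _, ?_⟩
    refine sum_lt_sum (fun v' _ =>
      mul_le_mul_of_nonneg_left (ker_le v0 v').1 (mul_nonneg (hw v0) (hw v'))) ⟨v1, mem_univ _, ?_⟩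
    exact mul_lt_mul_of_pos_left ((ker_le v0 v1).2 he) (mul_pos h0 h1)
  · push Not at hc
    have hz : ∀ v v' : V k, w v * w v' * ((2 * k + 1 - hh v - hh v') * ee v v') = 0 := by
      intro v v'
      rcases (hw v).eq_or_lt with h | h
      · rw [← h]; ring
      · rcases (hw v').eq_or_lt with h' | h'
        · rw [← h']; ring
        · rw [hc v v' h h']; ring
    rw [hker]
    simp_rw [hz]
    simp only [sum_const_zero, sub_zero]
    obtain ⟨v, hv⟩ : ∃ v : V k, 0 < w v * hh v := by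
      by_contra hcon
      push Not at hcon
      exact absurd hp (not_lt.2 (sum_nonpos fun v _ => hcon v))
    have h3 : 0 < w v * hh v ^ 2 := by
      have h4 : 0 < w v := by
        rcases (hw v).eq_or_lt with h | h
        · rw [← h] at hv; simp at hv
        · exact h
      have h5 : hh v ≠ 0 := by
        intro h; rw [h] at hv; simp at hv
      positivity
    have h6 : 0 < ∑ v, w v * hh v ^ 2 :=
      sum_pos' (fun v _ => mul_nonneg (hw v) (sq_nonneg _)) ⟨v, mem_univ _, h3⟩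
    positivity

end Pool.Agent.Q308.PCD
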