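import Mathlib
import Pool.Agent.Q308.PCD.Wt

/-!
# The inequality for the two sequences of distances
-/

set_option autoImplicit false

namespace Pool.Agent.Q308.PCD

open Finset

variable {k : ℕ}

/-- length of the overlap of two segments of lengths `s`, `t` issued from the two ends of a
segment of length `1/2` -/
noncomputable def ov (s t : ℝ) : ℝ := max 0 (s + t - 1 / 2)

/-- a sequence continued by the value `1/2` after `k` -/
noncomputable def ex (k : ℕ) (r : ℕ → ℝ) (m : ℕ) : ℝ := if m ≤ k then r m else 1 / 2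

/-- the weights -/
noncomputable def W (k : ℕ) (r l : ℕ → ℝ) (p q : ℕ) : ℝ :=
  ov (ex k r (p + 1)) (ex k l (q + 1)) - ov (ex k r p) (ex k l (q + 1)) -
    ov (ex k r (p + 1)) (ex k l q) + ov (ex k r p) (ex k l q)

lemma ov_super {s s' t t' : ℝ} (hs : s ≤ s') (ht : t ≤ t') :
    0 ≤ ov s' t' - ov s t' - ov s' t + ov s t := by
  unfold ov
  rcases max_cases 0 (s' + t' - 1 / 2) with ⟨h1, h1'⟩ | ⟨h1, h1'⟩ <;>
  rcases max_cases 0 (s + t' - 1 / 2) with ⟨h2, h2'⟩ | ⟨h2, h2'⟩ <;>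
  rcases max_cases 0 (s' + t - 1 / 2) with ⟨h3, h3'⟩ | ⟨h3, h3'⟩ <;>
  rcases max_cases 0 (s + t - 1 / 2) with ⟨h4, h4'⟩ | ⟨h4, h4'⟩ <;>
  linarith

/-- the hypotheses on the two sequences -/
structure Hyp (k : ℕ) (r l : ℕ → ℝ) : Prop where
  mr : Monotone r
  ml : Monotone l
  r0 : r 0 = 0
  l0 : l 0 = 0
  rk : r k ≤ 1 / 2
  lk : l k ≤ 1 / 2

lemma ex_mono {r : ℕ → ℝ} (hr : Monotone r) (hk : r k ≤ 1 / 2) (p : ℕ) (hp : p ≤ k) :
    ex k r p ≤ ex k r (p + 1) := by
  unfold ex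
  rw [if_pos hp]
  split_ifs
  · exact hr (Nat.le_succ p)
  · exact (hr hp).trans hk

lemma W_nonneg {r l : ℕ → ℝ} (H : Hyp k r l) (p q : ℕ) (hp : p ≤ k) (hq : q ≤ k) :
    0 ≤ W k r l p q :=
  ov_super (ex_mono H.mr H.rk p hp) (ex_mono H.ml H.lk q hq)

lemma ex_le {r : ℕ → ℝ} (hr : Monotone r) (hk : r k ≤ 1 / 2) (p : ℕ) :
    ex k r p ≤ 1 / 2 := by
  unfold ex
  split_ifs with h
  · exact (hr h).trans hk
  · exact le_rfl

lemma ex_zero {r : ℕ → ℝ} (hr : r 0 = 0) : ex k r 0 = 0 := by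
  unfold ex
  rw [if_pos (Nat.zero_le k), hr]

lemma ov_zero_left {t : ℝ} (ht : t ≤ 1 / 2) : ov 0 t = 0 := by
  unfold ov
  exact max_eq_left (by linarith)

lemma ov_zero_right {t : ℝ} (ht : t ≤ 1 / 2) : ov t 0 = 0 := by
  unfold ov
  exact max_eq_left (by linarith)

lemma sum_W {r l : ℕ → ℝ} (H : Hyp k r l) (m m' : ℕ) :
    ∑ p ∈ range m, ∑ q ∈ range m', W k r l p q = ov (ex k r m) (ex k l m') := by
  have h1 : ∀ p, ∑ q ∈ range m', W k r l p q =
      (ov (ex k r (p + 1)) (ex k l m') - ov (ex k r p) (ex k l m')) := by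
    intro p
    have h2 : ∀ q, W k r l p q =
        (ov (ex k r (p + 1)) (ex k l (q + 1)) - ov (ex k r p) (ex k l (q + 1))) -
        (ov (ex k r (p + 1)) (ex k l q) - ov (ex k r p) (ex k l q)) := by
      intro q; unfold W; ring
    simp_rw [h2]
    rw [sum_range_sub (fun q => ov (ex k r (p + 1)) (ex k l q) - ov (ex k r p) (ex k l q)),
      ex_zero H.l0, ov_zero_right (ex_le H.mr H.rk _), ov_zero_right (ex_le H.mr H.rk _)]
    ring
  simp_rw [h1]
  rw [sum_range_sub (fun p => ov (ex k r p) (ex k l m')), ex_zero H.r0,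
    ov_zero_left (ex_le H.ml H.lk _)]
  ring

lemma reidx (f : ℕ → ℝ) (m : ℕ) (hm : m ≤ k + 1) :
    ∑ i : Fin (k + 1), f (k - i) * (if k < m + (i : ℕ) then (1 : ℝ) else 0) =
      ∑ p ∈ range m, f p := by
  rw [Fin.sum_univ_eq_sum_range (fun i => f (k - i) * (if k < m + i then (1 : ℝ) else 0)) (k + 1),
    ← sum_range_reflect]
  have h1 : ∀ j ∈ range (k + 1), f (k - (k + 1 - 1 - j)) *
      (if k < m + (k + 1 - 1 - j) then (1 : ℝ) else 0) = if j < m then f j else 0 := by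
    intro j hj
    have hj' : j ≤ k := Nat.lt_succ_iff.1 (mem_range.1 hj)
    rw [show k - (k + 1 - 1 - j) = j by omega]
    by_cases h : j < m
    · rw [if_pos h, if_pos (by omega), mul_one]
    · rw [if_neg h, if_neg (by omega), mul_zero]
  rw [sum_congr rfl h1, ← sum_filter]
  refine sum_congr ?_ fun _ _ => rfl
  ext j
  rw [mem_filter, mem_range, mem_range]
  omega

/-- the weight of a value -/
noncomputable def ww (k : ℕ) (r l : ℕ → ℝ) (v : V k) : ℝ := W k r l (k - v.1) (k - v.2)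

noncomputable def cR (m : ℕ) (v : V k) : ℝ := if k < m + (v.1 : ℕ) then 1 else 0
noncomputable def cL (m : ℕ) (v : V k) : ℝ := if k < m + (v.2 : ℕ) then 1 else 0

lemma ww_nonneg {r l : ℕ → ℝ} (H : Hyp k r l) (v : V k) : 0 ≤ ww k r l v :=
  W_nonneg H _ _ (Nat.sub_le _ _) (Nat.sub_le _ _)

lemma sum_RL {r l : ℕ → ℝ} (H : Hyp k r l) (m m' : ℕ) (hm : m ≤ k + 1) (hm' : m' ≤ k + 1) :
    ∑ v : V k, ww k r l v * (cR m v * cL m' v) = ov (ex k r m) (ex k l m') := by
  rw [← sum_W H, Fintype.sum_prod_type, ← reidx _ m hm]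
  refine sum_congr rfl fun i _ => ?_
  rw [← reidx _ m' hm', sum_mul]
  refine sum_congr rfl fun j _ => ?_
  unfold ww cR cL
  ring

lemma cL_last (v : V k) : cL (k + 1) v = 1 := if_pos (by omega)
lemma cR_last (v : V k) : cR (k + 1) v = 1 := if_pos (by omega)

lemma ex_last (r : ℕ → ℝ) : ex k r (k + 1) = 1 / 2 := if_neg (by omega)
lemma ex_of (r : ℕ → ℝ) {m : ℕ} (hm : m ≤ k) : ex k r m = r m := if_pos hm

lemma sum_one {r l : ℕ → ℝ} (H : Hyp k r l) : ∑ v : V k, ww k r l v = 1 / 2 := by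
  have h := sum_RL H (k + 1) (k + 1) le_rfl le_rfl
  simp_rw [cL_last, cR_last, mul_one, ex_last] at h
  rw [h]
  unfold ov
  norm_num

lemma sum_R {r l : ℕ → ℝ} (H : Hyp k r l) (m : ℕ) (hm : m ≤ k) :
    ∑ v : V k, ww k r l v * cR m v = r m := by
  have h := sum_RL H m (k + 1) (by omega) le_rfl
  simp_rw [cL_last, mul_one, ex_last, ex_of r hm] at h
  rw [h]
  unfold ov
  have : 0 ≤ r m := by rw [← H.r0]; exact H.mr (Nat.zero_le m)
  rw [max_eq_right] <;> linarith

lemma sum_L {r l : ℕ → ℝ} (H : Hyp k r l) (m : ℕ) (hm : m ≤ k) :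
    ∑ v : V k, ww k r l v * cL m v = l m := by
  have h := sum_RL H (k + 1) m le_rfl (by omega)
  simp_rw [cR_last, one_mul, ex_last, ex_of l hm] at h
  rw [h]
  unfold ov
  have : 0 ≤ l m := by rw [← H.l0]; exact H.ml (Nat.zero_le m)
  rw [max_eq_right] <;> linarith

lemma sq_cR (m : ℕ) (v : V k) : cR m v * cR m v = cR m v := by
  unfold cR; split_ifs <;> norm_num
lemma sq_cL (m : ℕ) (v : V k) : cL m v * cL m v = cL m v := by
  unfold cL; split_ifs <;> norm_num

lemma mul_cR {m m' : ℕ} (h : m ≤ m') (v : V k) : cR m v * cR m' v = cR m v := by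
  unfold cR
  by_cases h1 : k < m + (v.1 : ℕ)
  · rw [if_pos h1, if_pos (by omega)]; norm_num
  · rw [if_neg h1]; norm_num
lemma mul_cL {m m' : ℕ} (h : m ≤ m') (v : V k) : cL m v * cL m' v = cL m v := by
  unfold cL
  by_cases h1 : k < m + (v.2 : ℕ)
  · rw [if_pos h1, if_pos (by omega)]; norm_num
  · rw [if_neg h1]; norm_num

lemma dist_RR {r l : ℕ → ℝ} (H : Hyp k r l) (m m' : ℕ) (hm : m ≤ k) (hm' : m' ≤ k) :
    ∑ v : V k, ww k r l v * (cR m v - cR m' v) ^ 2 = |r m - r m'| := by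
  have key : ∀ a b : ℕ, a ≤ b → b ≤ k →
      ∑ v : V k, ww k r l v * (cR a v - cR b v) ^ 2 = r b - r a := by
    intro a b hab hb
    rw [← sum_R H a (hab.trans hb), ← sum_R H b hb, ← sum_sub_distrib]
    refine sum_congr rfl fun v _ => ?_
    have h1 := mul_cR hab v
    have h2 := sq_cR a v
    have h3 := sq_cR b v
    calc ww k r l v * (cR a v - cR b v) ^ 2 = ww k r l v *
          (cR a v * cR a v - 2 * (cR a v * cR b v) + cR b v * cR b v) := by ring
      _ = _ := by rw [h1, h2, h3]; ring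
  rcases le_total m m' with h | h
  · rw [key m m' h hm', abs_sub_comm, abs_of_nonneg (sub_nonneg.2 (H.mr h))]
  · rw [abs_of_nonneg (sub_nonneg.2 (H.mr h)), ← key m' m h hm]
    exact sum_congr rfl fun v _ => by ring

lemma dist_LL {r l : ℕ → ℝ} (H : Hyp k r l) (m m' : ℕ) (hm : m ≤ k) (hm' : m' ≤ k) :
    ∑ v : V k, ww k r l v * (cL m v - cL m' v) ^ 2 = |l m - l m'| := by
  have key : ∀ a b : ℕ, a ≤ b → b ≤ k →
      ∑ v : V k, ww k r l v * (cL a v - cL b v) ^ 2 = l b - l a := by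
    intro a b hab hb
    rw [← sum_L H a (hab.trans hb), ← sum_L H b hb, ← sum_sub_distrib]
    refine sum_congr rfl fun v _ => ?_
    have h1 := mul_cL hab v
    have h2 := sq_cL a v
    have h3 := sq_cL b v
    calc ww k r l v * (cL a v - cL b v) ^ 2 = ww k r l v *
          (cL a v * cL a v - 2 * (cL a v * cL b v) + cL b v * cL b v) := by ring
      _ = _ := by rw [h1, h2, h3]; ring
  rcases le_total m m' with h | h
  · rw [key m m' h hm', abs_sub_comm, abs_of_nonneg (sub_nonneg.2 (H.ml h))]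
  · rw [abs_of_nonneg (sub_nonneg.2 (H.ml h)), ← key m' m h hm]
    exact sum_congr rfl fun v _ => by ring

lemma dist_RL {r l : ℕ → ℝ} (H : Hyp k r l) (m m' : ℕ) (hm : m ≤ k) (hm' : m' ≤ k) :
    ∑ v : V k, ww k r l v * (cR m v - cL m' v) ^ 2 = min (r m + l m') (1 - (r m + l m')) := by
  have h1 := sum_RL H m m' (by omega) (by omega)
  rw [ex_of r hm, ex_of l hm'] at h1
  have h2 : ∑ v : V k, ww k r l v * (cR m v - cL m' v) ^ 2 =
      r m + l m' - 2 * ov (r m) (l m') := by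
    rw [← h1]
    nth_rw 1 [← sum_R H m hm]
    nth_rw 1 [← sum_L H m' hm']
    rw [mul_sum, ← sum_add_distrib, ← sum_sub_distrib]
    refine sum_congr rfl fun v _ => ?_
    have h2 := sq_cR m v
    have h3 := sq_cL m' v
    calc ww k r l v * (cR m v - cL m' v) ^ 2 = ww k r l v *
          (cR m v * cR m v - 2 * (cR m v * cL m' v) + cL m' v * cL m' v) := by ring
      _ = _ := by rw [h2, h3]; ring
  rw [h2]
  unfold ov
  rcases max_cases 0 (r m + l m' - 1 / 2) with ⟨h3, h4⟩ | ⟨h3, h4⟩ <;>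
  rcases min_cases (r m + l m') (1 - (r m + l m')) with ⟨h5, h6⟩ | ⟨h5, h6⟩ <;>
  linarith

lemma count (i : ℕ) (hi : i ≤ k) :
    ∑ m ∈ range k, (if k < m + 1 + i then (1 : ℝ) else 0) = i := by
  rw [← sum_filter, sum_const, nsmul_eq_mul, mul_one]
  have : (range k).filter (fun m => k < m + 1 + i) = Ico (k - i) k := by
    ext m; rw [mem_filter, mem_range, mem_Ico]; omega
  rw [this, Nat.card_Ico]
  congr 1
  omega

lemma count_R (v : V k) : ∑ m ∈ range k, cR (m + 1) v = (v.1 : ℕ) :=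
  count _ (Nat.lt_succ_iff.1 v.1.isLt)
lemma count_L (v : V k) : ∑ m ∈ range k, cL (m + 1) v = (v.2 : ℕ) :=
  count _ (Nat.lt_succ_iff.1 v.2.isLt)

/-- social cost of the centre -/
noncomputable def sc0 (k : ℕ) (r l : ℕ → ℝ) : ℝ :=
  ∑ m ∈ range k, r (m + 1) + ∑ m ∈ range k, l (m + 1)

/-- social cost of the agent `a` on the right -/
noncomputable def scr (k : ℕ) (r l : ℕ → ℝ) (a : ℕ) : ℝ :=
  r a + ∑ m ∈ range k, |r (m + 1) - r a| +
    ∑ m ∈ range k, min (r a + l (m + 1)) (1 - (r a + l (m + 1)))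

/-- social cost of the agent `a` on the left -/
noncomputable def scl (k : ℕ) (r l : ℕ → ℝ) (a : ℕ) : ℝ :=
  l a + ∑ m ∈ range k, min (r (m + 1) + l a) (1 - (r (m + 1) + l a)) +
    ∑ m ∈ range k, |l (m + 1) - l a|

lemma sc0_eq {r l : ℕ → ℝ} (H : Hyp k r l) : sc0 k r l = ∑ v : V k, ww k r l v * hh v := by
  have h1 : ∑ m ∈ range k, r (m + 1) = ∑ v : V k, ww k r l v * ((v.1 : ℕ) : ℝ) := by
    rw [sum_congr rfl fun m hm => (sum_R H (m + 1) (by have := mem_range.1 hm; omega)).symm,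
      sum_comm]
    refine sum_congr rfl fun v _ => ?_
    rw [← mul_sum, count_R]
  have h2 : ∑ m ∈ range k, l (m + 1) = ∑ v : V k, ww k r l v * ((v.2 : ℕ) : ℝ) := by
    rw [sum_congr rfl fun m hm => (sum_L H (m + 1) (by have := mem_range.1 hm; omega)).symm,
      sum_comm]
    refine sum_congr rfl fun v _ => ?_
    rw [← mul_sum, count_L]
  unfold sc0 hh
  rw [h1, h2, ← sum_add_distrib]
  exact sum_congr rfl fun v _ => by ring

lemma cost_aux (x y z : ℝ) (s : Finset ℕ) (f g : ℕ → ℝ) (hx : x * x = x) (hf : ∑ m ∈ s, f m = y)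
    (hg : ∑ m ∈ s, g m = z) (hf2 : ∀ m, f m * f m = f m) (hg2 : ∀ m, g m * g m = g m) :
    x + ∑ m ∈ s, (f m - x) ^ 2 + ∑ m ∈ s, (g m - x) ^ 2 =
      (y + z) + (2 * (s.card : ℝ) + 1 - 2 * (y + z)) * x := by
  have h1 : ∀ m, (f m - x) ^ 2 = f m - 2 * x * f m + x := by
    intro m
    calc (f m - x) ^ 2 = f m * f m - 2 * x * f m + x * x := by ring
      _ = _ := by rw [hf2, hx]
  have h2 : ∀ m, (g m - x) ^ 2 = g m - 2 * x * g m + x := by
    intro m
    calc (g m - x) ^ 2 = g m * g m - 2 * x * g m + x * x := by ring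
      _ = _ := by rw [hg2, hx]
  simp_rw [h1, h2]
  simp_rw [sum_add_distrib, sum_sub_distrib, ← mul_sum, sum_const, nsmul_eq_mul, hf, hg]
  ring

lemma scr_eq {r l : ℕ → ℝ} (H : Hyp k r l) (a : ℕ) (ha : a ≤ k) :
    scr k r l a = ∑ v : V k, ww k r l v * (hh v + (2 * k + 1 - 2 * hh v) * cR a v) := by
  unfold scr
  have h1 : ∑ m ∈ range k, |r (m + 1) - r a| =
      ∑ v : V k, ww k r l v * ∑ m ∈ range k, (cR (m + 1) v - cR a v) ^ 2 := by
    rw [sum_congr rfl fun m hm =>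
      (dist_RR H (m + 1) a (by have := mem_range.1 hm; omega) ha).symm, sum_comm]
    exact sum_congr rfl fun v _ => by rw [← mul_sum]
  have h2 : ∑ m ∈ range k, min (r a + l (m + 1)) (1 - (r a + l (m + 1))) =
      ∑ v : V k, ww k r l v * ∑ m ∈ range k, (cL (m + 1) v - cR a v) ^ 2 := by
    rw [sum_congr rfl fun m hm =>
      (dist_RL H a (m + 1) ha (by have := mem_range.1 hm; omega)).symm, sum_comm]
    refine sum_congr rfl fun v _ => ?_
    rw [← mul_sum]
    congr 1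
    exact sum_congr rfl fun m _ => by ring
  rw [h1, h2, ← sum_R H a ha, ← sum_add_distrib, ← sum_add_distrib]
  refine sum_congr rfl fun v _ => ?_
  have h3 := cost_aux (cR a v) (v.1 : ℕ) (v.2 : ℕ) (range k) (fun m => cR (m + 1) v)
    (fun m => cL (m + 1) v) (sq_cR a v) (count_R v) (count_L v) (fun m => sq_cR _ _)
    (fun m => sq_cL _ _)
  rw [card_range] at h3
  unfold hh
  rw [← h3]
  ring

lemma scl_eq {r l : ℕ → ℝ} (H : Hyp k r l) (a : ℕ) (ha : a ≤ k) :
    scl k r l a = ∑ v : V k, ww k r l v * (hh v + (2 * k + 1 - 2 * hh v) * cL a v) := by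
  unfold scl
  have h1 : ∑ m ∈ range k, |l (m + 1) - l a| =
      ∑ v : V k, ww k r l v * ∑ m ∈ range k, (cL (m + 1) v - cL a v) ^ 2 := by
    rw [sum_congr rfl fun m hm =>
      (dist_LL H (m + 1) a (by have := mem_range.1 hm; omega) ha).symm, sum_comm]
    exact sum_congr rfl fun v _ => by rw [← mul_sum]
  have h2 : ∑ m ∈ range k, min (r (m + 1) + l a) (1 - (r (m + 1) + l a)) =
      ∑ v : V k, ww k r l v * ∑ m ∈ range k, (cR (m + 1) v - cL a v) ^ 2 := by
    rw [sum_congr rfl fun m hm =>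
      (dist_RL H (m + 1) a (by have := mem_range.1 hm; omega) ha).symm, sum_comm]
    exact sum_congr rfl fun v _ => by rw [← mul_sum]
  rw [h1, h2, ← sum_L H a ha, ← sum_add_distrib, ← sum_add_distrib]
  refine sum_congr rfl fun v _ => ?_
  have h3 := cost_aux (cL a v) (v.1 : ℕ) (v.2 : ℕ) (range k) (fun m => cR (m + 1) v)
    (fun m => cL (m + 1) v) (sq_cL a v) (count_R v) (count_L v) (fun m => sq_cR _ _)
    (fun m => sq_cL _ _)
  rw [card_range] at h3
  unfold hh
  rw [← h3]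
  ring

/-- telescoping -/
lemma tele (r : ℕ → ℝ) (hr : r 0 = 0) (j : ℕ) (hj : j ≤ k) :
    ∑ m ∈ range k, (r (k - m) - r (k - (m + 1))) * (if k < m + 1 + j then (1 : ℝ) else 0) =
      r j := by
  rw [← sum_range_reflect]
  have h1 : ∀ m ∈ range k, (r (k - (k - 1 - m)) - r (k - (k - 1 - m + 1))) *
      (if k < k - 1 - m + 1 + j then (1 : ℝ) else 0) =
      if m < j then r (m + 1) - r m else 0 := by
    intro m hm
    have hm' := mem_range.1 hm
    rw [show k - (k - 1 - m) = m + 1 by omega, show k - (k - 1 - m + 1) = m by omega]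
    by_cases h : m < j
    · rw [if_pos h, if_pos (by omega), mul_one]
    · rw [if_neg h, if_neg (by omega), mul_zero]
  rw [sum_congr rfl h1, ← sum_filter]
  have h2 : (range k).filter (fun m => m < j) = range j := by
    ext m; rw [mem_filter, mem_range, mem_range]; omega
  rw [h2, sum_range_sub, hr, sub_zero]

lemma rj_eq {r l : ℕ → ℝ} (H : Hyp k r l) (v : V k) :
    r (v.2 : ℕ) + l (v.1 : ℕ) = ∑ v' : V k, ww k r l v' * ee v v' := by
  rw [← sum_R H _ (Nat.lt_succ_iff.1 v.2.isLt), ← sum_L H _ (Nat.lt_succ_iff.1 v.1.isLt),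
    ← sum_add_distrib]
  refine sum_congr rfl fun v' _ => ?_
  unfold ee cR cL
  rw [add_comm (v.2 : ℕ) (v'.1 : ℕ)]
  ring

/-- **the main inequality** -/
theorem mainIneq {r l : ℕ → ℝ} (H : Hyp k r l) (hp : 0 < sc0 k r l) :
    (sc0 k r l + ∑ m ∈ range k, scr k r l (m + 1) + ∑ m ∈ range k, scl k r l (m + 1)) /
        (2 * k + 1) +
      ((1 - r k - l k) * sc0 k r l +
        ∑ m ∈ range k, (r (k - m) - r (k - (m + 1))) * scl k r l (m + 1) +
        ∑ m ∈ range k, (l (k - m) - l (k - (m + 1))) * scr k r l (m + 1)) < 3 * sc0 k r l := by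
  have hn : (0 : ℝ) < 2 * k + 1 := npos
  have hw := wineq (ww k r l) (ww_nonneg H) (sum_one H) (by rw [← sc0_eq H]; exact hp)
  -- random dictator
  have e1 : ∑ m ∈ range k, scr k r l (m + 1) =
      ∑ v : V k, ww k r l v * (k * hh v + (2 * k + 1 - 2 * hh v) * ((v.1 : ℕ) : ℝ)) := by
    rw [sum_congr rfl fun m hm => scr_eq H (m + 1) (by have := mem_range.1 hm; omega), sum_comm]
    refine sum_congr rfl fun v _ => ?_
    rw [← mul_sum, sum_add_distrib, ← mul_sum, count_R, sum_const, card_range, nsmul_eq_mul]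
  have e2 : ∑ m ∈ range k, scl k r l (m + 1) =
      ∑ v : V k, ww k r l v * (k * hh v + (2 * k + 1 - 2 * hh v) * ((v.2 : ℕ) : ℝ)) := by
    rw [sum_congr rfl fun m hm => scl_eq H (m + 1) (by have := mem_range.1 hm; omega), sum_comm]
    refine sum_congr rfl fun v _ => ?_
    rw [← mul_sum, sum_add_distrib, ← mul_sum, count_L, sum_const, card_range, nsmul_eq_mul]
  have e3 : sc0 k r l + ∑ m ∈ range k, scr k r l (m + 1) + ∑ m ∈ range k, scl k r l (m + 1) =
      (2 * k + 1) * (2 * sc0 k r l - 2 / (2 * k + 1) * ∑ v : V k, ww k r l v * hh v ^ 2) := by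
    rw [e1, e2, sc0_eq H, mul_sub, ← mul_assoc (2 * (k : ℝ) + 1) (2 / (2 * k + 1)),
      mul_div_cancel₀ _ hn.ne', mul_sum, mul_sum, mul_sum, ← sum_add_distrib,
      ← sum_add_distrib, ← sum_sub_distrib]
    refine sum_congr rfl fun v _ => ?_
    unfold hh
    ring
  -- proportional circle distance
  have t0 : ∑ m ∈ range k, (r (k - m) - r (k - (m + 1))) = r k := by
    have := tele r H.r0 k le_rfl
    rw [← this]
    refine sum_congr rfl fun m _ => ?_
    rw [if_pos (by omega), mul_one]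
  have t0' : ∑ m ∈ range k, (l (k - m) - l (k - (m + 1))) = l k := by
    have := tele l H.l0 k le_rfl
    rw [← this]
    refine sum_congr rfl fun m _ => ?_
    rw [if_pos (by omega), mul_one]
  have f1 : ∑ m ∈ range k, (r (k - m) - r (k - (m + 1))) * scl k r l (m + 1) =
      r k * sc0 k r l + ∑ v : V k, ww k r l v * ((2 * k + 1 - 2 * hh v) * r (v.2 : ℕ)) := by
    rw [sum_congr rfl fun m hm => by
      rw [scl_eq H (m + 1) (by have := mem_range.1 hm; omega), mul_sum], sum_comm]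
    rw [sc0_eq H, mul_sum, ← sum_add_distrib]
    refine sum_congr rfl fun v _ => ?_
    rw [← tele r H.r0 (v.2 : ℕ) (Nat.lt_succ_iff.1 v.2.isLt)]
    rw [← t0]
    rw [sum_mul, mul_sum, mul_sum, ← sum_add_distrib]
    refine sum_congr rfl fun m _ => ?_
    unfold cL
    ring
  have f2 : ∑ m ∈ range k, (l (k - m) - l (k - (m + 1))) * scr k r l (m + 1) =
      l k * sc0 k r l + ∑ v : V k, ww k r l v * ((2 * k + 1 - 2 * hh v) * l (v.1 : ℕ)) := by
    rw [sum_congr rfl fun m hm => by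
      rw [scr_eq H (m + 1) (by have := mem_range.1 hm; omega), mul_sum], sum_comm]
    rw [sc0_eq H, mul_sum, ← sum_add_distrib]
    refine sum_congr rfl fun v _ => ?_
    rw [← tele l H.l0 (v.1 : ℕ) (Nat.lt_succ_iff.1 v.1.isLt)]
    rw [← t0']
    rw [sum_mul, mul_sum, mul_sum, ← sum_add_distrib]
    refine sum_congr rfl fun m _ => ?_
    unfold cR
    ring
  have f3 : ∑ v : V k, ww k r l v * ((2 * k + 1 - 2 * hh v) * r (v.2 : ℕ)) +
      ∑ v : V k, ww k r l v * ((2 * k + 1 - 2 * hh v) * l (v.1 : ℕ)) =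
      ∑ v : V k, ∑ v' : V k, ww k r l v * ww k r l v' *
        ((2 * k + 1 - hh v - hh v') * ee v v') := by
    have g1 : ∑ v : V k, ww k r l v * ((2 * k + 1 - 2 * hh v) * r (v.2 : ℕ)) +
      ∑ v : V k, ww k r l v * ((2 * k + 1 - 2 * hh v) * l (v.1 : ℕ)) =
      ∑ v : V k, ∑ v' : V k, ww k r l v * ww k r l v' * ((2 * k + 1 - 2 * hh v) * ee v v') := by
      rw [← sum_add_distrib]
      refine sum_congr rfl fun v _ => ?_
      rw [← mul_add, ← mul_add, rj_eq H v, mul_sum, mul_sum]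
      exact sum_congr rfl fun v' _ => by ring
    have g2 : ∑ v : V k, ∑ v' : V k, ww k r l v * ww k r l v' *
          ((2 * k + 1 - 2 * hh v) * ee v v') =
        ∑ v : V k, ∑ v' : V k, ww k r l v * ww k r l v' *
          ((2 * k + 1 - 2 * hh v') * ee v v') := by
      rw [sum_comm]
      refine sum_congr rfl fun v _ => sum_congr rfl fun v' _ => ?_
      have : ee v v' = ee v' v := by unfold ee; ring
      rw [this]
      ring
    have g3 : 2 * (∑ v : V k, ∑ v' : V k, ww k r l v * ww k r l v' *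
        ((2 * k + 1 - hh v - hh v') * ee v v')) =
        ∑ v : V k, ∑ v' : V k, ww k r l v * ww k r l v' * ((2 * k + 1 - 2 * hh v) * ee v v') +
        ∑ v : V k, ∑ v' : V k, ww k r l v * ww k r l v' * ((2 * k + 1 - 2 * hh v') * ee v v') := by
      rw [mul_sum, ← sum_add_distrib]
      refine sum_congr rfl fun v _ => ?_
      rw [mul_sum, ← sum_add_distrib]
      exact sum_congr rfl fun v' _ => by ring
    rw [g1]
    linarith
  rw [e3, mul_div_cancel_left₀ _ hn.ne', f1, f2]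
  nlinarith [hw, f3]

end Pool.Agent.Q308.PCD
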