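import Mathlib
import Pool.Agent.Q308.PCD.Seq

/-!
# Lifts of a listing to the line
-/

set_option autoImplicit false

namespace Pool.Agent.Q308.PCD

open Finset

variable {k : ℕ}

/-- distance to the nearest integer -/
noncomputable def dd (x : ℝ) : ℝ := |x - round x|

lemma dd_nonneg (x : ℝ) : 0 ≤ dd x := abs_nonneg _

lemma dd_le (x : ℝ) (m : ℤ) : dd x ≤ |x - m| := round_le x m

lemma dd_le_abs (x : ℝ) : dd x ≤ |x| := by simpa using dd_le x 0

lemma dd_int (x : ℝ) (m : ℤ) : dd (x + m) = dd x := by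
  unfold dd
  rw [round_add_intCast]
  push_cast
  congr 1
  ring

lemma dd_neg (x : ℝ) : dd (-x) = dd x := by
  have h : ∀ y : ℝ, dd (-y) ≤ dd y := by
    intro y
    refine (dd_le (-y) (-round y)).trans (le_of_eq ?_)
    unfold dd
    rw [← abs_neg]
    congr 1
    push_cast
    ring
  refine le_antisymm (h x) ?_
  have := h (-x)
  rwa [neg_neg] at this

lemma dd_of_nonneg {x : ℝ} (h0 : 0 ≤ x) (h1 : x ≤ 1) : dd x = min x (1 - x) := by
  unfold dd
  rw [abs_sub_round_eq_min]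
  rcases h1.eq_or_lt with h | h
  · rw [h]
    simp
  · rw [Int.fract_eq_self.2 ⟨h0, h⟩]

lemma dd_eq_min {x : ℝ} (h : |x| ≤ 1) : dd x = min |x| (1 - |x|) := by
  rcases le_total 0 x with h0 | h0
  · rw [abs_of_nonneg h0] at h ⊢
    exact dd_of_nonneg h0 h
  · rw [abs_of_nonpos h0] at h ⊢
    rw [← dd_neg]
    exact dd_of_nonneg (by linarith) h

lemma dd_small {x : ℝ} (h : |x| ≤ 1 / 2) : dd x = |x| := by
  rw [dd_eq_min (by linarith), min_eq_left (by linarith)]

lemma dd_congr {x y : ℝ} (m : ℤ) (h : x = y + m) (v : ℝ) : dd (x - v) = dd (y - v) := by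
  rw [h, show y + m - v = (y - v) + m by ring, dd_int]

/-! ### sums over `ZMod (2k+1)` -/

/-- residues as elements of `Fin` -/
def eqv (k : ℕ) : Fin (2 * k + 1) ≃ ZMod (2 * k + 1) where
  toFun i := ((i : ℕ) : ZMod (2 * k + 1))
  invFun z := ⟨z.val, ZMod.val_lt z⟩
  left_inv i := by
    ext
    exact ZMod.val_natCast_of_lt i.isLt
  right_inv z := ZMod.natCast_zmod_val z

lemma sum_zmod (F : ZMod (2 * k + 1) → ℝ) :
    ∑ j, F j = ∑ t ∈ range (2 * k + 1), F (t : ℕ) := by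
  rw [← Fin.sum_univ_eq_sum_range (fun t => F ((t : ℕ) : ZMod (2 * k + 1))) (2 * k + 1)]
  exact (Equiv.sum_comp (eqv k) F).symm

lemma two_k_one : ((2 : ZMod (2 * k + 1)) * (k : ZMod (2 * k + 1)) + 1) = 0 := by
  have h := ZMod.natCast_self (2 * k + 1)
  push_cast at h
  exact h

lemma split_range (k : ℕ) (g : ℕ → ℝ) : ∑ t ∈ range (2 * k + 1), g t =
    g 0 + ∑ t ∈ range k, g (t + 1) + ∑ t ∈ range k, g (k + t + 1) := by
  rw [sum_range_succ', two_mul, sum_range_add]
  ring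

lemma sumZ (F : ZMod (2 * k + 1) → ℝ) (c : ZMod (2 * k + 1)) :
    ∑ j, F j = F c + ∑ m ∈ range k, F (c + ((m + 1 : ℕ) : ZMod (2 * k + 1))) +
      ∑ m ∈ range k, F (c - ((m + 1 : ℕ) : ZMod (2 * k + 1))) := by
  rw [← Equiv.sum_comp (Equiv.addLeft c) F, sum_zmod, split_range]
  simp only [Equiv.coe_addLeft]
  rw [← sum_range_reflect (fun x => F (c + ((k + x + 1 : ℕ) : ZMod (2 * k + 1))))]
  have h1 : ∑ j ∈ range k, F (c + ((k + (k - 1 - j) + 1 : ℕ) : ZMod (2 * k + 1))) =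
      ∑ m ∈ range k, F (c - ((m + 1 : ℕ) : ZMod (2 * k + 1))) := by
    refine sum_congr rfl fun j hj => ?_
    have hj' := mem_range.1 hj
    congr 1
    have h2 : ((k + (k - 1 - j) + 1 : ℕ) : ZMod (2 * k + 1)) + ((j + 1 : ℕ) : ZMod (2 * k + 1)) =
        0 := by
      rw [← Nat.cast_add, show k + (k - 1 - j) + 1 + (j + 1) = 2 * k + 1 by omega]
      exact ZMod.natCast_self _
    rw [eq_neg_of_add_eq_zero_left h2]
    ring
  rw [h1, Nat.cast_zero, add_zero]

/-! ### lifts -/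

/-- a nondecreasing lift of a listing of positions on the circle -/
structure Lift (k : ℕ) (Y : ℤ → ℝ) (y : ZMod (2 * k + 1) → ℝ) : Prop where
  mono : Monotone Y
  per : ∀ z : ℤ, Y (z + (2 * k + 1)) = Y z + 1
  red : ∀ z : ℤ, ∃ m : ℤ, Y z = y z + m

lemma per_nat {Y : ℤ → ℝ} {y : ZMod (2 * k + 1) → ℝ} (L : Lift k Y y) (z : ℤ) (q : ℕ) :
    Y (z + q * (2 * k + 1)) = Y z + q := by
  induction q with
  | zero => simp
  | succ q ih =>
    have := L.per (z + q * (2 * k + 1))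
    rw [ih] at this
    rw [show z + ((q + 1 : ℕ) : ℤ) * (2 * k + 1) = z + q * (2 * k + 1) + (2 * k + 1) by
      push_cast; ring, this]
    push_cast
    ring

/-- every point has a nearly opposite cut -/
lemma exists_cut {Y : ℤ → ℝ} {y : ZMod (2 * k + 1) → ℝ} (L : Lift k Y y) (v : ℝ) :
    ∃ c : ℤ, v - 1 / 2 ≤ Y (c - k) ∧ Y (c + k) ≤ v + 1 / 2 := by
  classical
  obtain ⟨K, hK⟩ := exists_nat_gt (|v - 1 / 2 - Y 0|)
  have hK' := abs_lt.1 hK
  have hup : v - 1 / 2 ≤ Y (0 + K * (2 * k + 1)) := by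
    rw [per_nat L]; linarith [hK'.2]
  have hlow : Y (-(K * (2 * k + 1))) < v - 1 / 2 := by
    have := per_nat L (-(K * (2 * k + 1))) K
    rw [neg_add_cancel] at this
    linarith [hK'.1]
  obtain ⟨s, hs, hmin⟩ := Int.exists_least_of_bdd (P := fun z => v - 1 / 2 ≤ Y z)
    ⟨-(K * (2 * k + 1)), fun z hz => by
      by_contra hcon
      have := L.mono (not_le.1 hcon).le
      linarith⟩ ⟨_, hup⟩
  refine ⟨s + k, by rw [add_sub_cancel_right]; exact hs, ?_⟩
  have h1 : Y (s - 1) < v - 1 / 2 := by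
    by_contra hcon
    have := hmin (s - 1) (not_lt.1 hcon)
    omega
  have h2 := L.per (s - 1)
  rw [show s - 1 + (2 * (k : ℤ) + 1) = s + k + k by ring] at h2
  linarith

/-- the social cost of a point -/
noncomputable def T (y : ZMod (2 * k + 1) → ℝ) (v : ℝ) : ℝ := ∑ j, dd (y j - v)

lemma T_eq {Y : ℤ → ℝ} {y : ZMod (2 * k + 1) → ℝ} (L : Lift k Y y) (c : ℤ) (v : ℝ) :
    T y v = dd (Y c - v) + ∑ m ∈ range k, dd (Y (c + (m + 1)) - v) +
      ∑ m ∈ range k, dd (Y (c - (m + 1)) - v) := by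
  unfold T
  have h : ∀ z : ℤ, dd (Y z - v) = dd (y z - v) := by
    intro z
    obtain ⟨m, hm⟩ := L.red z
    exact dd_congr m hm v
  rw [sumZ _ (c : ZMod (2 * k + 1)), h c]
  congr 1
  · congr 1
    refine sum_congr rfl fun m _ => ?_
    rw [h]
    push_cast
    rfl
  · refine sum_congr rfl fun m _ => ?_
    rw [h]
    push_cast
    rfl

lemma T_congr (y : ZMod (2 * k + 1) → ℝ) {v w : ℝ} (m : ℤ) (h : v = w + m) : T y v = T y w := by
  unfold T
  refine sum_congr rfl fun j _ => ?_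
  rw [h, show y j - (w + m) = (y j - w) + ((-m : ℤ) : ℝ) by push_cast; ring, dd_int]

/-- the cost of a cut -/
lemma cut_cost {Y : ℤ → ℝ} {y : ZMod (2 * k + 1) → ℝ} (L : Lift k Y y) {v : ℝ} {c : ℤ}
    (h1 : v - 1 / 2 ≤ Y (c - k)) (h2 : Y (c + k) ≤ v + 1 / 2) :
    T y (Y c) + |Y c - v| ≤ T y v := by
  have hin : ∀ z : ℤ, c - k ≤ z → z ≤ c + k → dd (Y z - v) = |Y z - v| := by
    intro z hz1 hz2
    refine dd_small (abs_le.2 ⟨?_, ?_⟩)
    · have := L.mono hz1; linarith
    · have := L.mono hz2; linarith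
  rw [T_eq L c v, T_eq L c (Y c), sub_self, hin c (by omega) (by omega)]
  have h0 : dd (0 : ℝ) = 0 := by
    have := dd_le_abs 0
    rw [abs_zero] at this
    exact le_antisymm this (dd_nonneg 0)
  have h3 : ∑ m ∈ range k, dd (Y (c + (m + 1)) - Y c) + ∑ m ∈ range k, dd (Y (c - (m + 1)) - Y c)
      ≤ ∑ m ∈ range k, dd (Y (c + (m + 1)) - v) + ∑ m ∈ range k, dd (Y (c - (m + 1)) - v) := by
    rw [← sum_add_distrib, ← sum_add_distrib]
    refine sum_le_sum fun m hm => ?_
    have hm' := mem_range.1 hm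
    rw [hin (c + (m + 1)) (by omega) (by omega), hin (c - (m + 1)) (by omega) (by omega)]
    have a1 : Y c ≤ Y (c + (m + 1)) := L.mono (by omega)
    have a2 : Y (c - (m + 1)) ≤ Y c := L.mono (by omega)
    have a3 := dd_le_abs (Y (c + (m + 1)) - Y c)
    have a4 := dd_le_abs (Y (c - (m + 1)) - Y c)
    rw [abs_of_nonneg (by linarith)] at a3
    rw [abs_of_nonpos (by linarith)] at a4
    have a5 := le_abs_self (Y (c + (m + 1)) - v)
    have a6 := neg_le_abs (Y (c - (m + 1)) - v)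
    linarith
  rw [h0]
  linarith

/-- a best agent, in the middle of a half-circle neighbourhood -/
lemma exists_centre {Y : ℤ → ℝ} {y : ZMod (2 * k + 1) → ℝ} (L : Lift k Y y) :
    ∃ c : ℤ, (∀ v, T y (Y c) ≤ T y v) ∧ Y c - 1 / 2 ≤ Y (c - k) ∧ Y (c + k) ≤ Y c + 1 / 2 := by
  obtain ⟨j0, -, hj0⟩ := exists_min_image (univ : Finset (ZMod (2 * k + 1)))
    (fun j => T y (y j)) ⟨0, mem_univ _⟩
  have hY : ∀ z : ℤ, T y (Y z) = T y (y z) := by
    intro z
    obtain ⟨m, hm⟩ := L.red z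
    exact T_congr y m hm
  obtain ⟨c0, hc0⟩ := ZMod.intCast_surjective j0
  have hmin : ∀ z : ℤ, T y (Y c0) ≤ T y (Y z) := by
    intro z
    rw [hY, hY, hc0]
    exact hj0 _ (mem_univ _)
  obtain ⟨c, hc1, hc2⟩ := exists_cut L (Y c0)
  have h1 := cut_cost L hc1 hc2
  have h2 := hmin c
  have h3 := abs_nonneg (Y c - Y c0)
  have h4 : |Y c - Y c0| = 0 := le_antisymm (by linarith) h3
  have h5 : Y c = Y c0 := by
    have := abs_eq_zero.1 h4
    linarith
  refine ⟨c, fun v => ?_, by rw [h5]; exact hc1, by rw [h5]; exact hc2⟩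
  obtain ⟨c', hc'1, hc'2⟩ := exists_cut L v
  have h6 := cut_cost L hc'1 hc'2
  have h7 := hmin c'
  have h8 := abs_nonneg (Y c' - v)
  rw [h5]
  linarith

/-- if the optimum is positive, consecutive agents are less than one turn apart -/
lemma gap_lt {Y : ℤ → ℝ} {y : ZMod (2 * k + 1) → ℝ} (L : Lift k Y y)
    (hpos : ∀ v, 0 < T y v) (z : ℤ) : Y (z + 1) - Y z < 1 := by
  by_contra hcon
  have h1 : Y z + 1 ≤ Y (z + 1) := by linarith
  have h2 : ∀ w : ℤ, z + 1 ≤ w → w ≤ z + (2 * k + 1) → Y w = Y z + 1 := by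
    intro w hw1 hw2
    have a1 := L.mono hw1
    have a2 := L.mono hw2
    rw [L.per] at a2
    exact le_antisymm a2 (h1.trans a1)
  have h0 : dd (0 : ℝ) = 0 := by
    have := dd_le_abs 0
    rw [abs_zero] at this
    exact le_antisymm this (dd_nonneg 0)
  have h3 : T y (Y z) = 0 := by
    rw [T_eq L z, sub_self, h0]
    have a : ∀ m ∈ range k, dd (Y (z + (m + 1)) - Y z) = 0 := by
      intro m hm
      have hm' := mem_range.1 hm
      rw [h2 (z + (m + 1)) (by omega) (by omega), add_sub_cancel_left]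
      have := dd_int 0 1
      rw [zero_add, Int.cast_one] at this
      rw [this, h0]
    have b : ∀ m ∈ range k, dd (Y (z - (m + 1)) - Y z) = 0 := by
      intro m hm
      have hm' := mem_range.1 hm
      have h4 := L.per (z - (m + 1))
      rw [h2 (z - (m + 1) + (2 * k + 1)) (by omega) (by omega)] at h4
      rw [show Y (z - (m + 1)) - Y z = 0 by linarith, h0]
    rw [sum_congr rfl a, sum_congr rfl b]
    simp
  exact absurd (hpos (Y z)) (by rw [h3]; exact lt_irrefl 0)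

/-- the arcs are the gaps of the lift -/
lemma fract_gap {Y : ℤ → ℝ} {y : ZMod (2 * k + 1) → ℝ} (L : Lift k Y y)
    (hpos : ∀ v, 0 < T y v) (z : ℤ) :
    Int.fract (y ((z : ZMod (2 * k + 1)) - k) - y ((z : ZMod (2 * k + 1)) + k)) =
      Y (z + k + 1) - Y (z + k) := by
  obtain ⟨m1, h1⟩ := L.red (z + k)
  obtain ⟨m2, h2⟩ := L.red (z + k + 1)
  have e1 : (((z + k : ℤ)) : ZMod (2 * k + 1)) = (z : ZMod (2 * k + 1)) + k := by push_cast; rfl
  have e2 : (((z + k + 1 : ℤ)) : ZMod (2 * k + 1)) = (z : ZMod (2 * k + 1)) - k := by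
    have := two_k_one (k := k)
    push_cast
    linear_combination this
  rw [e1] at h1
  rw [e2] at h2
  have h3 : y ((z : ZMod (2 * k + 1)) - k) - y ((z : ZMod (2 * k + 1)) + k) =
      (Y (z + k + 1) - Y (z + k)) + ((m1 - m2 : ℤ) : ℝ) := by
    rw [h1, h2]; push_cast; ring
  rw [h3, Int.fract_add_intCast, Int.fract_eq_self]
  refine ⟨sub_nonneg.2 (L.mono (by omega)), gap_lt L hpos _⟩

/-- the inequality for a lifted listing -/
theorem lift_ineq {Y : ℤ → ℝ} {y : ZMod (2 * k + 1) → ℝ} (L : Lift k Y y) (c : ℤ)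
    (hc : ∀ v, T y (Y c) ≤ T y v) (hc1 : Y c - 1 / 2 ≤ Y (c - k)) (hc2 : Y (c + k) ≤ Y c + 1 / 2)
    (hpos : 0 < T y (Y c)) :
    (∑ j, T y (y j)) / (2 * k + 1) +
      ∑ j, Int.fract (y (j - k) - y (j + k)) * T y (y j) < 3 * T y (Y c) := by
  have hY : ∀ z : ℤ, T y (Y z) = T y (y z) := by
    intro z
    obtain ⟨m, hm⟩ := L.red z
    exact T_congr y m hm
  have hpos' : ∀ v, 0 < T y v := fun v => hpos.trans_le (hc v)
  set r : ℕ → ℝ := fun m => Y (c + m) - Y c with hr
  set l : ℕ → ℝ := fun m => Y c - Y (c - m) with hl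
  have H : Hyp k r l := by
    refine ⟨?_, ?_, ?_, ?_, ?_, ?_⟩
    · intro a b hab
      have := L.mono (show c + (a : ℤ) ≤ c + b by omega)
      simp only [hr]; linarith
    · intro a b hab
      have := L.mono (show c - (b : ℤ) ≤ c - a by omega)
      simp only [hl]; linarith
    · simp [hr]
    · simp [hl]
    · simp only [hr]; linarith
    · simp only [hl]; linarith
  have hrn : ∀ m, m ≤ k → 0 ≤ r m ∧ r m ≤ 1 / 2 := fun m hm =>
    ⟨by rw [← H.r0]; exact H.mr (Nat.zero_le m), (H.mr hm).trans H.rk⟩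
  have hln : ∀ m, m ≤ k → 0 ≤ l m ∧ l m ≤ 1 / 2 := fun m hm =>
    ⟨by rw [← H.l0]; exact H.ml (Nat.zero_le m), (H.ml hm).trans H.lk⟩
  have hYr : ∀ m : ℕ, Y (c + m) = Y c + r m := fun m => by simp only [hr]; ring
  have hYl : ∀ m : ℕ, Y (c - m) = Y c - l m := fun m => by simp only [hl]; ring
  have hYr1 : ∀ m : ℕ, Y (c + (m + 1)) = Y c + r (m + 1) := fun m => by
    have := hYr (m + 1)
    push_cast at this
    exact this
  have hYl1 : ∀ m : ℕ, Y (c - (m + 1)) = Y c - l (m + 1) := fun m => by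
    have := hYl (m + 1)
    push_cast at this
    exact this
  have hr1 : ∀ m ∈ range k, 0 ≤ r (m + 1) ∧ r (m + 1) ≤ 1 / 2 := fun m hm =>
    hrn _ (by have := mem_range.1 hm; omega)
  have hl1 : ∀ m ∈ range k, 0 ≤ l (m + 1) ∧ l (m + 1) ≤ 1 / 2 := fun m hm =>
    hln _ (by have := mem_range.1 hm; omega)
  have h0 : T y (Y c) = sc0 k r l := by
    rw [T_eq L c, sub_self]
    unfold sc0
    have z : dd (0 : ℝ) = 0 := by
      rw [dd_small (by norm_num), abs_zero]
    rw [z, zero_add]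
    congr 1
    · refine sum_congr rfl fun m hm => ?_
      obtain ⟨a, b⟩ := hr1 m hm
      rw [hYr1, add_sub_cancel_left, dd_small (by rw [abs_of_nonneg a]; exact b), abs_of_nonneg a]
    · refine sum_congr rfl fun m hm => ?_
      obtain ⟨a, b⟩ := hl1 m hm
      rw [hYl1, show Y c - l (m + 1) - Y c = -l (m + 1) by ring, dd_neg,
        dd_small (by rw [abs_of_nonneg a]; exact b), abs_of_nonneg a]
  have hR : ∀ a : ℕ, a ≤ k → T y (Y (c + a)) = scr k r l a := by
    intro a ha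
    obtain ⟨ra, rb⟩ := hrn a ha
    rw [T_eq L c, hYr]
    unfold scr
    congr 1
    · congr 1
      · rw [show Y c - (Y c + r a) = -r a by ring, dd_neg,
          dd_small (by rw [abs_of_nonneg ra]; exact rb), abs_of_nonneg ra]
      · refine sum_congr rfl fun m hm => ?_
        obtain ⟨a1, b1⟩ := hr1 m hm
        rw [hYr1, show Y c + r (m + 1) - (Y c + r a) = r (m + 1) - r a by ring,
          dd_small (abs_le.2 ⟨by linarith, by linarith⟩)]
    · refine sum_congr rfl fun m hm => ?_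
      obtain ⟨a1, b1⟩ := hl1 m hm
      rw [hYl1, show Y c - l (m + 1) - (Y c + r a) = -(r a + l (m + 1)) by ring, dd_neg,
        dd_of_nonneg (by linarith) (by linarith)]
  have hLl : ∀ a : ℕ, a ≤ k → T y (Y (c - a)) = scl k r l a := by
    intro a ha
    obtain ⟨ra, rb⟩ := hln a ha
    rw [T_eq L c, hYl]
    unfold scl
    congr 1
    · congr 1
      · rw [show Y c - (Y c - l a) = l a by ring,
          dd_small (by rw [abs_of_nonneg ra]; exact rb), abs_of_nonneg ra]
      · refine sum_congr rfl fun m hm => ?_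
        obtain ⟨a1, b1⟩ := hr1 m hm
        rw [hYr1, show Y c + r (m + 1) - (Y c - l a) = r (m + 1) + l a by ring,
          dd_of_nonneg (by linarith) (by linarith)]
    · refine sum_congr rfl fun m hm => ?_
      obtain ⟨a1, b1⟩ := hl1 m hm
      rw [hYl1, show Y c - l (m + 1) - (Y c - l a) = -(l (m + 1) - l a) by ring, dd_neg,
        dd_small (abs_le.2 ⟨by linarith, by linarith⟩)]
  have hR1 : ∀ m ∈ range k, T y (y ((c : ZMod (2 * k + 1)) + ((m + 1 : ℕ) : ZMod (2 * k + 1)))) =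
      scr k r l (m + 1) := by
    intro m hm
    rw [← hR (m + 1) (by have := mem_range.1 hm; omega), hY]
    push_cast
    rfl
  have hL1 : ∀ m ∈ range k, T y (y ((c : ZMod (2 * k + 1)) - ((m + 1 : ℕ) : ZMod (2 * k + 1)))) =
      scl k r l (m + 1) := by
    intro m hm
    rw [← hLl (m + 1) (by have := mem_range.1 hm; omega), hY]
    push_cast
    rfl
  have hc0 : T y (y (c : ZMod (2 * k + 1))) = sc0 k r l := by rw [← hY, h0]
  -- the arcs
  have p0 : Int.fract (y ((c : ZMod (2 * k + 1)) - k) - y ((c : ZMod (2 * k + 1)) + k)) =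
      1 - r k - l k := by
    rw [fract_gap L hpos']
    have := L.per (c - k)
    rw [show c - (k : ℤ) + (2 * k + 1) = c + k + 1 by ring] at this
    rw [this, hYr, hYl]
    ring
  have pR : ∀ m ∈ range k, Int.fract
      (y ((c : ZMod (2 * k + 1)) + ((m + 1 : ℕ) : ZMod (2 * k + 1)) - k) -
        y ((c : ZMod (2 * k + 1)) + ((m + 1 : ℕ) : ZMod (2 * k + 1)) + k)) =
      l (k - m) - l (k - (m + 1)) := by
    intro m hm
    have hm' := mem_range.1 hm
    have e : (c : ZMod (2 * k + 1)) + ((m + 1 : ℕ) : ZMod (2 * k + 1)) =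
        ((c + (m + 1) : ℤ) : ZMod (2 * k + 1)) := by push_cast; rfl
    rw [e, fract_gap L hpos']
    have g1 := L.per (c + (m + 1) - k)
    have g2 := L.per (c + m - k)
    have f1 : c + ((m : ℤ) + 1) - k + (2 * k + 1) = c + (m + 1) + k + 1 := by ring
    have f2 : c + (m : ℤ) - k + (2 * k + 1) = c + (m + 1) + k := by ring
    rw [f1] at g1
    rw [f2] at g2
    rw [g1, g2]
    simp only [hl]
    rw [show c - ((k - m : ℕ) : ℤ) = c + m - k by omega,
      show c - ((k - (m + 1) : ℕ) : ℤ) = c + (m + 1) - k by omega]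
    ring
  have pL : ∀ m ∈ range k, Int.fract
      (y ((c : ZMod (2 * k + 1)) - ((m + 1 : ℕ) : ZMod (2 * k + 1)) - k) -
        y ((c : ZMod (2 * k + 1)) - ((m + 1 : ℕ) : ZMod (2 * k + 1)) + k)) =
      r (k - m) - r (k - (m + 1)) := by
    intro m hm
    have hm' := mem_range.1 hm
    have e : (c : ZMod (2 * k + 1)) - ((m + 1 : ℕ) : ZMod (2 * k + 1)) =
        ((c - (m + 1) : ℤ) : ZMod (2 * k + 1)) := by push_cast; rfl
    rw [e, fract_gap L hpos']
    simp only [hr]
    rw [show c + ((k - m : ℕ) : ℤ) = c - (m + 1) + k + 1 by omega,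
      show c + ((k - (m + 1) : ℕ) : ℤ) = c - (m + 1) + k by omega]
    ring
  have main := mainIneq H (by rw [← h0]; exact hpos)
  have s1 : ∑ j, T y (y j) = sc0 k r l + ∑ m ∈ range k, scr k r l (m + 1) +
      ∑ m ∈ range k, scl k r l (m + 1) := by
    rw [sumZ _ (c : ZMod (2 * k + 1)), hc0, sum_congr rfl hR1, sum_congr rfl hL1]
  have s2 : ∑ j, Int.fract (y (j - k) - y (j + k)) * T y (y j) =
      (1 - r k - l k) * sc0 k r l +
        ∑ m ∈ range k, (l (k - m) - l (k - (m + 1))) * scr k r l (m + 1) +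
        ∑ m ∈ range k, (r (k - m) - r (k - (m + 1))) * scl k r l (m + 1) := by
    rw [sumZ _ (c : ZMod (2 * k + 1)), hc0, p0]
    congr 1
    · congr 1
      refine sum_congr rfl fun m hm => ?_
      rw [pR m hm, hR1 m hm]
    · refine sum_congr rfl fun m hm => ?_
      rw [pL m hm, hL1 m hm]
  rw [s1, s2, h0]
  linarith

/-- the arcs add up to one turn -/
theorem sum_arcs {Y : ℤ → ℝ} {y : ZMod (2 * k + 1) → ℝ} (L : Lift k Y y)
    (hpos : ∀ v, 0 < T y v) :
    ∑ j, Int.fract (y (j - k) - y (j + k)) = 1 := by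
  rw [sum_zmod]
  have h : ∀ t ∈ range (2 * k + 1), Int.fract (y (((t : ℕ) : ZMod (2 * k + 1)) - k) -
      y (((t : ℕ) : ZMod (2 * k + 1)) + k)) = Y (((t + 1 : ℕ) : ℤ) + k) - Y ((t : ℕ) + k) := by
    intro t _
    have := fract_gap L hpos (t : ℤ)
    rw [Int.cast_natCast] at this
    rw [this]
    congr 2
    push_cast
    ring
  rw [sum_congr rfl h, sum_range_sub (fun t : ℕ => Y ((t : ℤ) + k))]
  have := L.per (k : ℤ)
  rw [show ((2 * k + 1 : ℕ) : ℤ) + k = k + (2 * k + 1) by push_cast; ring, this]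
  simp

end Pool.Agent.Q308.PCD
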